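import Pool.Agent.H57.TF.Del0

/-!
# Project TG, module DEL (helper57)
-/

set_option autoImplicit false

open MvPolynomial Module

namespace Pool.Agent.H57.TF

open Pool.Agent.H77.TF
open Pool.Agent.H75.TF (D D_add D_smul D_frob DL D_hom cmp_mem D_comp det_hom frob_mem frob_hom)

noncomputable section

/-- the determinant of `θ_0, …, θ_(m-1), ψ, φ` as a linear map in `ψ` -/
def L2 (K : Type) [Field K] [Fintype K] (m : ℕ) (φ : Fin (m + 2) → MvPolynomial (Fin (m + 2)) K) :
    (Fin (m + 2) → MvPolynomial (Fin (m + 2)) K) →ₗ[MvPolynomial (Fin (m + 2)) K]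
      MvPolynomial (Fin (m + 2)) K where
  toFun ψ := (((Matrix.of fun k : Fin (m + 2) => frob K (m + 2) (k : ℕ)).updateRow
    (Fin.last (m + 1)) φ).updateRow (Fin.last m).castSucc ψ).det
  map_add' _ _ := Matrix.det_updateRow_add _ _ _ _
  map_smul' _ _ := Matrix.det_updateRow_smul _ _ _ _

section L2

variable {K : Type} [Field K] [Fintype K] {m : ℕ} (φ : Fin (m + 2) → MvPolynomial (Fin (m + 2)) K)

theorem L2_apply (ψ : Fin (m + 2) → MvPolynomial (Fin (m + 2)) K) :
    L2 K m φ ψ = (((Matrix.of fun k : Fin (m + 2) => frob K (m + 2) (k : ℕ)).updateRow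
    (Fin.last (m + 1)) φ).updateRow (Fin.last m).castSucc ψ).det := rfl

theorem L2_frob (k : Fin m) : L2 K m φ (frob K (m + 2) k) = 0 := by
  rw [L2_apply]
  have hne1 : (k.castSucc.castSucc : Fin (m + 2)) ≠ Fin.last (m + 1) := (Fin.castSucc_lt_last _).ne
  have hne2 : (k.castSucc.castSucc : Fin (m + 2)) ≠ (Fin.last m).castSucc := fun h =>
    (Fin.castSucc_lt_last k).ne (Fin.castSucc_injective _ h)
  have h := Matrix.det_updateRow_eq_zero (M := (Matrix.of fun k : Fin (m + 2) =>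
    frob K (m + 2) (k : ℕ)).updateRow (Fin.last (m + 1)) φ) hne2
  have h2 : (Matrix.of fun k : Fin (m + 2) => frob K (m + 2) (k : ℕ)).updateRow
      (Fin.last (m + 1)) φ k.castSucc.castSucc = frob K (m + 2) k := by
    rw [Matrix.updateRow_ne hne1]
    rfl
  rw [h2] at h
  exact h

theorem L2_self : L2 K m φ φ = 0 := by
  rw [L2_apply]
  have hne2 : (Fin.last (m + 1) : Fin (m + 2)) ≠ (Fin.last m).castSucc :=
    (Fin.castSucc_lt_last _).ne'
  have h := Matrix.det_updateRow_eq_zero (M := (Matrix.of fun k : Fin (m + 2) =>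
    frob K (m + 2) (k : ℕ)).updateRow (Fin.last (m + 1)) φ) hne2
  rw [Matrix.updateRow_self] at h
  exact h

theorem L2_last : L2 K m φ (frob K (m + 2) m) = D K (m + 1) φ := by
  rw [L2_apply]
  unfold D
  have hne : ((Fin.last m).castSucc : Fin (m + 2)) ≠ Fin.last (m + 1) := (Fin.castSucc_lt_last _).ne
  have h2 : (Matrix.of fun k : Fin (m + 2) => frob K (m + 2) (k : ℕ)).updateRow
      (Fin.last (m + 1)) φ (Fin.last m).castSucc = frob K (m + 2) m := by
    rw [Matrix.updateRow_ne hne]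
    rfl
  rw [← h2, Matrix.updateRow_eq_self]

theorem L2_hom {N : ℕ} (hφ : ∀ i, (φ i).IsHomogeneous N) (N' : ℕ)
    (ψ : Fin (m + 2) → MvPolynomial (Fin (m + 2)) K) (hψ : ∀ i, (ψ i).IsHomogeneous N') :
    (L2 K m φ ψ).IsHomogeneous ((∑ k ∈ Finset.range m, Fintype.card K ^ k + N) + N') := by
  rw [L2_apply]
  have hne : ((Fin.last m).castSucc : Fin (m + 2)) ≠ Fin.last (m + 1) := (Fin.castSucc_lt_last _).ne
  have h1 := det_hom (((Matrix.of fun k : Fin (m + 2) => frob K (m + 2) (k : ℕ)).updateRow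
    (Fin.last (m + 1)) φ).updateRow (Fin.last m).castSucc ψ)
    (fun k => if (k : ℕ) < m then Fintype.card K ^ (k : ℕ) else if (k : ℕ) = m then N' else N) (by
      intro k i
      by_cases hk1 : k = (Fin.last m).castSucc
      · rw [hk1, Matrix.updateRow_self]
        rw [Fin.val_castSucc, Fin.val_last, if_neg (lt_irrefl m), if_pos rfl]
        exact hψ i
      · rw [Matrix.updateRow_ne hk1]
        have hk1' : (k : ℕ) ≠ m := fun h => hk1 (Fin.ext (by
          rw [Fin.val_castSucc, Fin.val_last]; exact h))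
        by_cases hk2 : k = Fin.last (m + 1)
        · rw [hk2, Matrix.updateRow_self, Fin.val_last, if_neg (by omega), if_neg (by omega)]
          exact hφ i
        · have hk2' : (k : ℕ) ≠ m + 1 := fun h => hk2 (Fin.ext (by rw [Fin.val_last]; exact h))
          have := k.2
          rw [Matrix.updateRow_ne hk2, if_pos (by omega)]
          exact frob_hom _ _)
  rw [Fin.sum_univ_castSucc, Fin.sum_univ_castSucc] at h1
  have h3 : ∀ k : Fin m, (if ((k.castSucc.castSucc : Fin (m + 2)) : ℕ) < m then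
      Fintype.card K ^ ((k.castSucc.castSucc : Fin (m + 2)) : ℕ) else
      if ((k.castSucc.castSucc : Fin (m + 2)) : ℕ) = m then N' else N) =
      Fintype.card K ^ (k : ℕ) := by
    intro k
    have := k.2
    rw [Fin.val_castSucc, Fin.val_castSucc, if_pos (by omega)]
  have h4 : (if (((Fin.last m).castSucc : Fin (m + 2)) : ℕ) < m then
      Fintype.card K ^ (((Fin.last m).castSucc : Fin (m + 2)) : ℕ) else
      if (((Fin.last m).castSucc : Fin (m + 2)) : ℕ) = m then N' else N) = N' := by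
    rw [Fin.val_castSucc, Fin.val_last, if_neg (by omega), if_pos rfl]
  have h5 : (if ((Fin.last (m + 1) : Fin (m + 2)) : ℕ) < m then
      Fintype.card K ^ ((Fin.last (m + 1) : Fin (m + 2)) : ℕ) else
      if ((Fin.last (m + 1) : Fin (m + 2)) : ℕ) = m then N' else N) = N := by
    rw [Fin.val_last, if_neg (by omega), if_neg (by omega)]
  simp only [h3] at h1
  rw [h4, h5] at h1
  have h6 : ∑ k ∈ Finset.range m, Fintype.card K ^ k + N + N' =
      ∑ k : Fin m, Fintype.card K ^ (k : ℕ) + N' + N := by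
    rw [Finset.sum_range]
    ring
  rw [h6]
  exact h1

end L2

/-- Steps (b), (c): the Frobenius field `θ_(m)` of the hyperplane is a combination of the others and of the
restriction of `φ`. -/
theorem stepc {K : Type} [Field K] [Fintype K] {m : ℕ} (hm : 1 ≤ m) {ν : Type} [Fintype ν]
    (A : ν → Fin (m + 2) → K) {r : Fin (m + 2) → K} {j : Fin (m + 2)} (hj : r j ≠ 0)
    (hAr : ∀ i (c : K), A i ≠ c • r)
    (hu : uncD A ≠ 0) (hthr : uncD A + Fintype.card ν = thr (Fintype.card K) (m + 2))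
    {ρ : MvPolynomial (Fin (m + 2)) K →ₐ[K] MvPolynomial (Fin (m + 1)) K}
    (hs : ∀ i, ρ (X (j.succAbove i)) = X i) (h0 : ρ (lin r) = 0)
    {φ : Fin (m + 2) → MvPolynomial (Fin (m + 2)) K} (hφ : φ ∈ LD A) (hrφ : evl r φ = 0)
    (hle : ∑ k ∈ Finset.range (m + 1), Fintype.card K ^ k ≤ Fintype.card ν + 1)
    (hφh : ∀ i, (φ i).IsHomogeneous
      (Fintype.card ν + 1 - ∑ k ∈ Finset.range (m + 1), Fintype.card K ^ k))
    (hne : D K m (fun i => ρ (φ (j.succAbove i))) ≠ 0) :
    ∃ (s : Fin m → MvPolynomial (Fin (m + 1)) K) (t : MvPolynomial (Fin (m + 1)) K),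
      frob K (m + 1) m = ∑ k : Fin m, s k • frob K (m + 1) k +
        t • (fun i => ρ (φ (j.succAbove i))) := by
  classical
  have : Fintype (Projectivization K (Fin (m + 1) → K)) := Fintype.ofFinite _
  have hρC : ∀ c : K, ρ (C c) = C c := fun c => by rw [algHom_C, algebraMap_eq]
  obtain ⟨v, hv⟩ : ∃ v : Fin (m + 1) → MvPolynomial (Fin (m + 1)) K,
    v = fun i => ρ (φ (j.succAbove i)) := ⟨_, rfl⟩
  rw [← hv] at hne ⊢
  obtain ⟨N, hN⟩ : ∃ N, N = Fintype.card ν + 1 - ∑ k ∈ Finset.range (m + 1), Fintype.card K ^ k :=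
    ⟨_, rfl⟩
  rw [← hN] at hφh
  have hvh : ∀ i, (v i).IsHomogeneous N := fun i => by
    rw [hv]
    exact rho_hom hj hs h0 (hφh _)
  have hlin : ∀ (b : Fin (m + 1) → K), ρ (lin (j.insertNth 0 b : Fin (m + 2) → K)) = lin b := by
    intro b
    unfold lin
    rw [map_sum, Fin.sum_univ_succAbove _ j]
    simp only [map_mul, hρC, Fin.insertNth_apply_same, Fin.insertNth_apply_succAbove, map_zero,
      zero_mul, zero_add, hs]
  have hevl : ∀ (b : Fin (m + 1) → K),
      ρ (evl (j.insertNth 0 b : Fin (m + 2) → K) φ) = evl b v := by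
    intro b
    unfold evl
    rw [map_sum, Fin.sum_univ_succAbove _ j]
    simp only [map_mul, hρC, Fin.insertNth_apply_same, Fin.insertNth_apply_succAbove, map_zero,
      zero_mul, zero_add]
    rw [hv]
  -- the arrangement in the hyperplane
  let β : Type := {p : Projectivization K (Fin (m + 1) → K) // ∃ i, A i ∈ pl j r p.rep}
  let B : β → Fin (m + 1) → K := fun p => p.1.rep
  have hBS : Simple B := by
    refine ⟨fun p => p.1.rep_nonzero, fun p p' hpp c hc => hpp (Subtype.ext (rep_eq hc))⟩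
  have hvB : v ∈ LD B := by
    rintro ⟨p, i, hi⟩
    show lin p.rep ∣ evl p.rep v
    unfold pl at hi
    rw [Submodule.mem_span_pair] at hi
    obtain ⟨s, t, hst⟩ := hi
    have hs0 : s ≠ 0 := by
      intro h1
      rw [h1, zero_smul, zero_add] at hst
      exact hAr i t hst.symm
    have h2 : ρ (lin (A i)) = C s * lin p.rep := by
      rw [← hst, lin_add, lin_smul, lin_smul, map_add, map_mul, map_mul, h0, hρC, hlin, mul_zero,
        add_zero]
    have h3 : ρ (evl (A i) φ) = C s * evl p.rep v := by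
      rw [← hst, evl_add, evl_smul, evl_smul, map_add, map_mul, map_mul, hrφ, hρC, hevl,
        map_zero, mul_zero, add_zero]
    have h4 : ρ (lin (A i)) ∣ ρ (evl (A i) φ) := map_dvd ρ (hφ i)
    rw [h2, h3] at h4
    exact (mul_dvd_mul_iff_left (by rw [Ne, C_eq_zero]; exact hs0)).1 h4
  -- the rows
  obtain ⟨w, hw⟩ : ∃ w : Fin (m + 1) → Fin (m + 1) → MvPolynomial (Fin (m + 1)) K,
      w = Function.update (fun k : Fin (m + 1) => frob K (m + 1) (k : ℕ)) (Fin.last m) v :=
    ⟨_, rfl⟩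
  have hwlast : w (Fin.last m) = v := by rw [hw, Function.update_self]
  have hwne : ∀ k : Fin (m + 1), k ≠ Fin.last m → w k = frob K (m + 1) (k : ℕ) := by
    intro k hk
    rw [hw, Function.update_of_ne hk]
  have hwLD : ∀ k, w k ∈ LD B := by
    intro k
    by_cases hk : k = Fin.last m
    · rw [hk, hwlast]
      exact hvB
    · rw [hwne k hk]
      exact frob_mem B _
  have hwD : (Matrix.of w).det = D K m v := by
    unfold D
    rw [hw]
    rfl
  -- the determinant
  have hdvd : ∏ p : β, lin (B p) ∣ D K m v := by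
    rw [← hwD]
    exact Pool.Agent.H22.TF.prod_lin_dvd Finset.univ B hBS.1 hBS.2 fun p _ =>
      det K (m + 1) (B p) (hBS.1 p) w fun k => hwLD k p
  have hDh := D_hom N v hvh
  have hprod : (∏ p : β, lin (B p)).IsHomogeneous (Fintype.card β) := by
    have h1 := IsHomogeneous.prod Finset.univ (fun p : β => lin (B p)) (fun _ => 1)
      (fun p _ => Pool.Agent.H22.TF.lin_hom (B p))
    simpa using h1
  have hle2 : Fintype.card β ≤ ∑ k ∈ Finset.range m, Fintype.card K ^ k + N := by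
    obtain ⟨u, hu⟩ := hdvd
    have hne' := hne
    rw [hu] at hne'
    have hg0 := left_ne_zero_of_mul hne'
    have h1 := totalDegree_mul_of_isDomain hg0 (right_ne_zero_of_mul hne')
    rw [← hu, hDh.totalDegree hne, hprod.totalDegree hg0] at h1
    omega
  have hq : 0 < Fintype.card K ^ m := pow_pos Fintype.card_pos m
  have hge : ∑ k ∈ Finset.range m, Fintype.card K ^ k + N ≤ Fintype.card β := by
    have h1 := card_cov (j := j) (r := r) A hj hu
    have h2 : Nat.card {p : Projectivization K (Fin (m + 1) → K) // ∃ i, A i ∈ pl j r p.rep} =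
      Fintype.card β := Nat.card_eq_fintype_card
    rw [h2, Finset.sum_range_succ] at h1
    rw [Finset.sum_range_succ] at hN hle
    unfold thr at hthr
    have h3 : ∑ k ∈ Finset.range m, Fintype.card K ^ k =
        1 + ∑ k ∈ Finset.Ico 1 m, Fintype.card K ^ k := by
      rw [Finset.range_eq_Ico, Finset.sum_eq_sum_Ico_succ_bot (by omega), pow_zero]
    have h4 : m + 2 - 2 = m := by omega
    rw [h4] at hthr
    omega
  have hcard : Fintype.card β = ∑ k ∈ Finset.range m, Fintype.card K ^ k + N :=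
    le_antisymm hle2 hge
  rw [hcard] at hprod
  obtain ⟨c, hc, hcD⟩ := Pool.Agent.H22.TF.eq_C_mul hne hDh hprod hdvd
  obtain ⟨b, hb⟩ := Pool.Agent.H27.TF.sai pri det K (m + 1) β B hBS w c hc hwLD
    (by rw [hwD]; exact hcD)
  have hrep := b.sum_repr ⟨frob K (m + 1) m, frob_mem B m⟩
  have hrep' := congrArg (fun x : LD B => (x : Fin (m + 1) → MvPolynomial (Fin (m + 1)) K)) hrep
  simp only [Submodule.coe_sum, Submodule.coe_smul, hb] at hrep'
  rw [Fin.sum_univ_castSucc, hwlast] at hrep'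
  refine ⟨fun k => b.repr ⟨frob K (m + 1) m, frob_mem B m⟩ k.castSucc,
    b.repr ⟨frob K (m + 1) m, frob_mem B m⟩ (Fin.last m), ?_⟩
  refine hrep'.symm.trans ?_
  congr 1
  refine Finset.sum_congr rfl fun k _ => ?_
  rw [hwne _ (Fin.castSucc_lt_last k).ne, Fin.val_castSucc]

/-- Step (d): the lift. -/
theorem stepd {K : Type} [Field K] [Fintype K] {m : ℕ} {ν : Type}
    (A : ν → Fin (m + 2) → K) {r : Fin (m + 2) → K} {j : Fin (m + 2)} (hj : r j ≠ 0)
    (hr0 : r ≠ 0) (hA0 : ∀ i, A i ≠ 0) (hAr : ∀ i (c : K), A i ≠ c • r)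
    {ρ : MvPolynomial (Fin (m + 2)) K →ₐ[K] MvPolynomial (Fin (m + 1)) K}
    (hs : ∀ i, ρ (X (j.succAbove i)) = X i) (h0 : ρ (lin r) = 0)
    (hren : ∀ f, ρ (rename j.succAbove f) = f) (hker : ∀ f, ρ f = 0 → lin r ∣ f)
    {φ : Fin (m + 2) → MvPolynomial (Fin (m + 2)) K} (hφ : φ ∈ LD A) (hrφ : evl r φ = 0)
    (s : Fin m → MvPolynomial (Fin (m + 1)) K) (t : MvPolynomial (Fin (m + 1)) K)
    (hst : frob K (m + 1) m = ∑ k : Fin m, s k • frob K (m + 1) k +
        t • (fun i => ρ (φ (j.succAbove i)))) :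
    ∃ ψ ∈ LD A, lin r • ψ = frob K (m + 2) m -
      ∑ k : Fin m, rename j.succAbove (s k) • frob K (m + 2) k - rename j.succAbove t • φ := by
  classical
  have hρC : ∀ c : K, ρ (C c) = C c := fun c => by rw [algHom_C, algebraMap_eq]
  have hρh : ∀ f, lin r ∣ f → ρ f = 0 := by
    rintro f ⟨g, rfl⟩
    rw [map_mul, h0, zero_mul]
  set Θ : Fin (m + 2) → MvPolynomial (Fin (m + 2)) K := frob K (m + 2) m -
      ∑ k : Fin m, rename j.succAbove (s k) • frob K (m + 2) k - rename j.succAbove t • φ with hΘ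
  have hΘs : ∀ i, ρ (Θ (j.succAbove i)) = 0 := by
    intro i
    have h1 := congrFun hst i
    rw [Pi.add_apply, Finset.sum_apply] at h1
    rw [hΘ, Pi.sub_apply, Pi.sub_apply, Finset.sum_apply, map_sub, map_sub, map_sum]
    have h2 : ρ (frob K (m + 2) m (j.succAbove i)) = frob K (m + 1) m i := by
      simp only [frob, map_pow, hs]
    have h3 : ∑ k : Fin m, ρ ((rename j.succAbove (s k) • frob K (m + 2) k) (j.succAbove i)) =
        ∑ k : Fin m, (s k • frob K (m + 1) k) i := by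
      refine Finset.sum_congr rfl fun k _ => ?_
      simp only [Pi.smul_apply, smul_eq_mul, map_mul, frob, map_pow, hs, hren]
    have h4 : ρ ((rename j.succAbove t • φ) (j.succAbove i)) =
        (t • (fun i => ρ (φ (j.succAbove i)))) i := by
      simp only [Pi.smul_apply, smul_eq_mul, map_mul, hren]
    rw [h2, h3, h4, h1]
    ring
  have hdivf : ∀ a : Fin (m + 2) → K,
      lin a ∣ evl a (∑ k : Fin m, rename j.succAbove (s k) • frob K (m + 2) k) := by
    intro a
    rw [evl_vsum]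
    refine Finset.dvd_sum fun k _ => ?_
    rw [evl_vsmul]
    exact dvd_mul_of_dvd_right (evl_frob_dvd a k) _
  have hdivΘ : ∀ a : Fin (m + 2) → K, lin a ∣ evl a φ → lin a ∣ evl a Θ := by
    intro a ha
    rw [hΘ, evl_vsub, evl_vsub, evl_vsmul]
    exact dvd_sub (dvd_sub (evl_frob_dvd a m) (hdivf a)) (dvd_mul_of_dvd_right ha _)
  have hΘj : ρ (Θ j) = 0 := by
    have h2 := hρh _ (hdivΘ r (by rw [hrφ]; exact dvd_zero _))
    unfold evl at h2
    rw [map_sum, Fin.sum_univ_succAbove _ j] at h2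
    simp only [map_mul, hρC, hΘs, mul_zero, Finset.sum_const_zero, add_zero] at h2
    exact (mul_eq_zero.1 h2).resolve_left (by rw [C_eq_zero]; exact hj)
  have hΘ0 : ∀ i, lin r ∣ Θ i := by
    intro i
    refine hker _ ?_
    rcases eq_or_ne i j with rfl | hij
    · exact hΘj
    · obtain ⟨k, rfl⟩ := Fin.exists_succAbove_eq hij
      exact hΘs k
  choose ψ hψ using hΘ0
  have heq : lin r • ψ = Θ := by
    funext i
    rw [Pi.smul_apply, smul_eq_mul, ← hψ]
  refine ⟨ψ, fun i => ?_, heq⟩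
  obtain ⟨hp, hab⟩ := pri K (m + 2) (A i) (hA0 i)
  have h1 : lin (A i) ∣ evl (A i) Θ := hdivΘ _ (hφ i)
  rw [← heq, evl_vsmul] at h1
  rcases hp.dvd_or_dvd h1 with h2 | h2
  · exfalso
    obtain ⟨c, hc⟩ := hab r h2
    have hc0 : c ≠ 0 := by
      rintro rfl
      exact hr0 (by rw [hc, zero_smul])
    refine hAr i c⁻¹ ?_
    rw [hc, smul_smul, inv_mul_cancel₀ hc0, one_smul]
  · exact h2

/-- **Module DEL.** -/
theorem del (phi : S_PHI) (rsn : S_RSN) : S_DEL := by
  classical
  intro K _ _ l ν _ A r hl hA hr0 hu hthr hrW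
  obtain ⟨m, rfl⟩ : ∃ m, l = m + 2 := ⟨l - 2, by omega⟩
  have hm : 1 ≤ m := by omega
  -- a missed plane
  obtain ⟨⟨W0, hW0, hW0A⟩⟩ : Nonempty {W : Submodule K (Fin (m + 2) → K) //
      finrank K W = 2 ∧ ∀ i, A i ∉ W} := (Nat.card_ne_zero.1 hu).1
  have hrW0 : r ∈ W0 := hrW W0 hW0 hW0A
  have hAr : ∀ i (c : K), A i ≠ c • r := fun i c h => hW0A i (h ▸ W0.smul_mem c hrW0)
  have hrA : ∀ i (c : K), r ≠ c • A i := by
    intro i c hc
    have hc0 : c ≠ 0 := by
      rintro rfl
      rw [zero_smul] at hc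
      exact hr0 hc
    apply hAr i c⁻¹
    rw [hc, smul_smul, inv_mul_cancel₀ hc0, one_smul]
  obtain ⟨j, hj⟩ : ∃ j, r j ≠ 0 := by
    by_contra hc
    push Not at hc
    exact hr0 (funext hc)
  obtain ⟨ρ, hs, h0, hren, hker⟩ := sub K (m + 1) r j hj
  -- the larger arrangement
  obtain ⟨A', hA'⟩ : ∃ A' : Option ν → Fin (m + 2) → K, A' = fun o => o.elim r A := ⟨_, rfl⟩
  have hn : A' none = r := by rw [hA']; rfl
  have hso : ∀ i, A' (some i) = A i := fun i => by rw [hA']; rfl
  have hS : Simple A' := by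
    constructor
    · rintro (_ | i)
      · rw [hn]; exact hr0
      · rw [hso]; exact hA.1 i
    · rintro (_ | i) (_ | k) hij c
      · exact absurd rfl hij
      · rw [hn, hso]; exact hrA k c
      · rw [hn, hso]; exact hAr i c
      · rw [hso, hso]
        exact hA.2 i k (fun h => hij (by rw [h])) c
  have hB' : BlocksD A' := by
    intro W hW
    by_cases h : ∃ i, A i ∈ W
    · obtain ⟨i, hi⟩ := h
      exact ⟨some i, by rw [hso]; exact hi⟩
    · refine ⟨none, ?_⟩
      rw [hn]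
      exact hrW W hW (fun i hi => h ⟨i, hi⟩)
  obtain ⟨-, φ0, hφ0, -, c, hc, hD⟩ := phi K (m + 1) (Option ν) A' (by omega) hS hB'
  rw [← D_eq, Fintype.prod_option, hn] at hD
  simp only [hso] at hD
  have hφ0A : φ0 ∈ LD A := fun i => by
    have := hφ0 (some i)
    rw [hso] at this
    exact this
  obtain ⟨g, hg⟩ : lin r ∣ evl r φ0 := by
    have := hφ0 none
    rw [hn] at this
    exact this
  -- tangent to `r`: value zero
  obtain ⟨φ1, hφ1⟩ : ∃ φ1, φ1 = φ0 - g • frob K (m + 2) 0 := ⟨_, rfl⟩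
  have hrφ1 : evl r φ1 = 0 := by
    rw [hφ1, evl_vsub, evl_vsmul, evl_frob, pow_zero, pow_one, hg]
    ring
  have hφ1A : φ1 ∈ LD A := by
    rw [hφ1]
    exact (LD A).sub_mem hφ0A ((LD A).smul_mem _ (frob_mem A 0))
  have hD1 : D K (m + 1) φ1 = C c * (lin r * ∏ i, lin (A i)) := by
    rw [← hD, hφ1]
    have h1 : D K (m + 1) (frob K (m + 2) 0) = 0 := D_frob (K := K) (m := m + 1) ⟨0, by omega⟩
    have h2 := map_sub (DL K (m + 1)) φ0 (g • frob K (m + 2) 0)
    have h3 : DL K (m + 1) (g • frob K (m + 2) 0) = 0 := by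
      rw [map_smul]
      show g • D K (m + 1) (frob K (m + 2) 0) = 0
      rw [h1, smul_zero]
    rw [h3, sub_zero] at h2
    exact h2
  have hprodA : (∏ i, lin (A i)).IsHomogeneous (Fintype.card ν) := by
    have h1 := IsHomogeneous.prod Finset.univ (fun i => lin (A i)) (fun _ => 1)
      (fun i _ => Pool.Agent.H22.TF.lin_hom (A i))
    simpa using h1
  have hprodA0 : ∏ i, lin (A i) ≠ 0 := Finset.prod_ne_zero_iff.2 fun i _ => lin_ne_zero (hA.1 i)
  have hC0 : (C c : MvPolynomial (Fin (m + 2)) K) ≠ 0 := by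
    rw [Ne, C_eq_zero]; exact hc
  have hDhom : (D K (m + 1) φ1).IsHomogeneous (Fintype.card ν + 1) := by
    rw [hD1, add_comm (Fintype.card ν) 1]
    exact ((Pool.Agent.H22.TF.lin_hom r).mul hprodA).C_mul c
  have hD0 : D K (m + 1) φ1 ≠ 0 := by
    rw [hD1]
    exact mul_ne_zero hC0 (mul_ne_zero (lin_ne_zero hr0) hprodA0)
  obtain ⟨hle, hDc⟩ := D_comp φ1 _ hDhom hD0
  obtain ⟨φ, hφ⟩ : ∃ φ, φ = Pool.Agent.H75.TF.cmp
    (Fintype.card ν + 1 - ∑ k ∈ Finset.range (m + 1), Fintype.card K ^ k) φ1 := ⟨_, rfl⟩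
  rw [← hφ] at hDc
  have hφA : φ ∈ LD A := by rw [hφ]; exact cmp_mem A _ _ hφ1A
  have hrφ : evl r φ = 0 := by rw [hφ, evl_cmp, hrφ1, map_zero]
  have hφh : ∀ i, (φ i).IsHomogeneous
      (Fintype.card ν + 1 - ∑ k ∈ Finset.range (m + 1), Fintype.card K ^ k) := by
    intro i
    rw [hφ]
    exact homogeneousComponent_isHomogeneous _ _
  have hDφ : D K (m + 1) φ = C c * (lin r * ∏ i, lin (A i)) := by rw [hDc, hD1]
  -- the restriction is nonsingular
  obtain ⟨b0, hb0, hb0W⟩ := exists_pl (j := j) hj W0 hW0 hrW0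
  have hne : D K m (fun i => ρ (φ (j.succAbove i))) ≠ 0 := by
    rw [D_eq']
    refine rsn K (m + 1) ν A r j ρ φ c b0 (by omega) hj hs h0 hc hrφ ?_ hb0
      (fun i hi => hW0A i (hb0W hi))
    rw [← D_eq]
    exact hDφ
  obtain ⟨s, t, hst⟩ := stepc hm A hj hAr hu hthr hs h0 hφA hrφ hle hφh hne
  obtain ⟨ψ, hψA, hψ⟩ := stepd A hj hr0 hA.1 hAr hs h0 hren hker hφA hrφ s t hst
  -- the determinant
  have hL : L2 K m φ ψ = C c * ∏ i, lin (A i) := by
    apply mul_left_cancel₀ (lin_ne_zero hr0)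
    have h1 : lin r * L2 K m φ ψ = L2 K m φ (lin r • ψ) := by rw [map_smul, smul_eq_mul]
    rw [h1, hψ, map_sub, map_sub, map_sum, L2_last, map_smul, L2_self, smul_zero, sub_zero]
    have h2 : ∀ k : Fin m, L2 K m φ (rename j.succAbove (s k) • frob K (m + 2) k) = 0 := by
      intro k
      rw [map_smul, L2_frob, smul_zero]
    simp only [h2, Finset.sum_const_zero, sub_zero]
    rw [hDφ]
    ring
  have hLhom : (L2 K m φ ψ).IsHomogeneous (Fintype.card ν) := by
    rw [hL]
    exact hprodA.C_mul c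
  have hL0 : L2 K m φ ψ ≠ 0 := by
    rw [hL]
    exact mul_ne_zero hC0 hprodA0
  obtain ⟨hle2, hLc⟩ := L_comp (L2 K m φ) _ _ (fun N φ' h => L2_hom φ hφh N φ' h) ψ hLhom hL0
  have hdeg : Fintype.card ν - (∑ k ∈ Finset.range m, Fintype.card K ^ k +
      (Fintype.card ν + 1 - ∑ k ∈ Finset.range (m + 1), Fintype.card K ^ k)) =
      Fintype.card K ^ m - 1 := by
    have hq : 0 < Fintype.card K ^ m := pow_pos Fintype.card_pos m
    rw [Finset.sum_range_succ] at hle ⊢
    omega
  rw [hdeg, hL] at hLc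
  -- the basis
  obtain ⟨w, hw⟩ : ∃ w : Fin (m + 2) → Fin (m + 2) → MvPolynomial (Fin (m + 2)) K,
      w = Function.update (Function.update (fun k : Fin (m + 2) => frob K (m + 2) (k : ℕ))
        (Fin.last (m + 1)) φ) (Fin.last m).castSucc
        (Pool.Agent.H75.TF.cmp (Fintype.card K ^ m - 1) ψ) := ⟨_, rfl⟩
  have hne1 : (Fin.last (m + 1) : Fin (m + 2)) ≠ (Fin.last m).castSucc :=
    (Fin.castSucc_lt_last _).ne'
  have hw1 : w (Fin.last m).castSucc = Pool.Agent.H75.TF.cmp (Fintype.card K ^ m - 1) ψ := by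
    rw [hw, Function.update_self]
  have hw2 : w (Fin.last (m + 1)) = φ := by
    rw [hw, Function.update_of_ne hne1, Function.update_self]
  have hw3 : ∀ k, k ≠ (Fin.last m).castSucc → k ≠ Fin.last (m + 1) →
      w k = frob K (m + 2) (k : ℕ) := by
    intro k hk1 hk2
    rw [hw, Function.update_of_ne hk1, Function.update_of_ne hk2]
  have hwLD : ∀ k, w k ∈ LD A := by
    intro k
    by_cases hk1 : k = (Fin.last m).castSucc
    · rw [hk1, hw1]
      exact cmp_mem A _ ψ hψA
    · by_cases hk2 : k = Fin.last (m + 1)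
      · rw [hk2, hw2]
        exact hφA
      · rw [hw3 k hk1 hk2]
        exact frob_mem A _
  have hwdet : (Matrix.of w).det = C c * ∏ i, lin (A i) := by
    rw [← hLc, L2_apply, hw]
    rfl
  obtain ⟨b, hb⟩ := Pool.Agent.H27.TF.sai pri det K (m + 2) ν A hA w c hc hwLD hwdet
  refine ⟨b, fun k i => ?_⟩
  rw [hb]
  unfold expo2
  by_cases hk2 : k = Fin.last (m + 1)
  · rw [hk2, hw2, Fin.val_last, if_pos (by omega)]
    exact hφh i
  · have hk2' : (k : ℕ) ≠ m + 1 := fun h => hk2 (Fin.ext (by rw [Fin.val_last]; exact h))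
    by_cases hk1 : k = (Fin.last m).castSucc
    · rw [hk1, hw1, Fin.val_castSucc, Fin.val_last, if_neg (by omega), if_pos (by omega)]
      exact homogeneousComponent_isHomogeneous _ _
    · have hk1' : (k : ℕ) ≠ m := fun h => hk1 (Fin.ext (by
          rw [Fin.val_castSucc, Fin.val_last]; exact h))
      rw [hw3 k hk1 hk2, if_neg (by omega), if_neg (by omega)]
      exact frob_hom _ _

end

end Pool.Agent.H57.TF
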