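import Pool.Agent.H22.TF.Mdt
import Pool.Agent.H75.TF.Suf
import Pool.Agent.H27.TF.Sai
import Pool.Agent.H77.TF.Stm2

/-!
# Project TG, module DEL: lemmas
-/

set_option autoImplicit false

open MvPolynomial Module

namespace Pool.Agent.H57.TF

open Pool.Agent.H77.TF
open Pool.Agent.H75.TF (D D_add D_smul D_frob DL D_hom cmp cmp_mem D_comp det_hom frob_mem frob_hom)

noncomputable section

/-! ### Homogeneous components -/

section comp

variable {K : Type} [Field K] {l : ℕ}

theorem evl_cmp (a : Fin l → K) (N : ℕ) (φ : Fin l → MvPolynomial (Fin l) K) :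
    evl a (cmp N φ) = homogeneousComponent N (evl a φ) := by
  unfold evl Pool.Agent.H75.TF.cmp
  rw [map_sum]
  refine Finset.sum_congr rfl fun j _ => ?_
  rw [homogeneousComponent_C_mul]

theorem L_comp (L : (Fin l → MvPolynomial (Fin l) K) →ₗ[MvPolynomial (Fin l) K] MvPolynomial (Fin l) K)
    (s n : ℕ) (hL : ∀ N φ, (∀ i, (φ i).IsHomogeneous N) → (L φ).IsHomogeneous (s + N))
    (φ : Fin l → MvPolynomial (Fin l) K) (hD : (L φ).IsHomogeneous n) (h0 : L φ ≠ 0) :
    s ≤ n ∧ L (cmp (n - s) φ) = L φ := by
  classical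
  -- a common bound for the degrees
  obtain ⟨R, hR⟩ : ∃ R, ∀ i, (φ i).totalDegree < R :=
    ⟨(Finset.univ.sup fun i => (φ i).totalDegree) + 1, fun i =>
      Nat.lt_succ_of_le (Finset.le_sup (f := fun i => (φ i).totalDegree) (Finset.mem_univ i))⟩
  have hφ : φ = ∑ N ∈ Finset.range R, cmp N φ := by
    funext i
    rw [Finset.sum_apply]
    unfold Pool.Agent.H75.TF.cmp
    conv_lhs => rw [← sum_homogeneousComponent (φ i)]
    refine Finset.sum_subset ?_ ?_
    · intro N hN
      rw [Finset.mem_range] at hN ⊢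
      have := hR i
      omega
    · intro N _ hN
      rw [Finset.mem_range] at hN
      exact homogeneousComponent_eq_zero _ _ (by omega)
  have hDs : L φ = ∑ N ∈ Finset.range R, L (cmp N φ) := by
    have h1 := map_sum L (fun N => cmp N φ) (Finset.range R)
    rw [← hφ] at h1
    exact h1
  have hcmp : ∀ N, (L (cmp N φ)).IsHomogeneous (s + N) := by
    intro N
    exact hL N _ fun i => homogeneousComponent_isHomogeneous _ _
  have h2 : L φ = ∑ N ∈ Finset.range R, if n = s + N then L (cmp N φ) else 0 := by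
    have h3 : homogeneousComponent n (L φ) = L φ := homogeneousComponent_eq_self hD
    conv_lhs => rw [← h3, hDs, map_sum]
    refine Finset.sum_congr rfl fun N _ => ?_
    exact homogeneousComponent_of_mem (hcmp N)
  have hle : s ≤ n := by
    by_contra hlt
    apply h0
    rw [h2]
    refine Finset.sum_eq_zero fun N _ => ?_
    rw [if_neg (by omega)]
  refine ⟨hle, ?_⟩
  rw [h2]
  by_cases hN : n - s < R
  · rw [Finset.sum_eq_single (n - s)]
    · rw [if_pos (by omega)]
    · intro N _ hN'
      rw [if_neg (by omega)]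
    · intro h3
      exact absurd (Finset.mem_range.2 hN) h3
  · exfalso
    apply h0
    rw [h2]
    refine Finset.sum_eq_zero fun N hN' => ?_
    rw [Finset.mem_range] at hN'
    rw [if_neg (by omega)]

end comp

section detD

variable {K : Type} [Field K] [Fintype K] {m : ℕ}

theorem D_eq (φ : Fin (m + 1) → MvPolynomial (Fin (m + 1)) K) :
    D K m φ = (Matrix.of fun k : Fin (m + 1) => if (k : ℕ) = m then φ else frob K (m + 1) k).det := by
  unfold D
  congr 1
  ext k i
  by_cases hk : k = Fin.last m
  · rw [hk, Matrix.updateRow_self, Matrix.of_apply, Fin.val_last, if_pos rfl]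
  · rw [Matrix.updateRow_ne hk, Matrix.of_apply, Matrix.of_apply, if_neg]
    intro h
    exact hk (Fin.ext (by rw [Fin.val_last]; exact h))

theorem D_eq' (φ : Fin (m + 1) → MvPolynomial (Fin (m + 1)) K) :
    D K m φ =
      (Matrix.of fun k : Fin (m + 1) => if (k : ℕ) + 1 = m + 1 then φ else frob K (m + 1) k).det := by
  rw [D_eq]
  congr 1
  ext k i
  simp only [Matrix.of_apply, add_left_inj]

end detD

/-! ### The planes containing `r` -/

section planes

variable {K : Type} [Field K] {m : ℕ} {j : Fin (m + 1)} {r : Fin (m + 1) → K}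

/-- the plane spanned by `b` (extended by `0`) and `r` -/
def pl (j : Fin (m + 1)) (r : Fin (m + 1) → K) (b : Fin m → K) : Submodule K (Fin (m + 1) → K) :=
  Submodule.span K {(j.insertNth (0 : K) b : Fin (m + 1) → K), r}

theorem r_mem_pl (b : Fin m → K) : r ∈ pl j r b := Submodule.subset_span (by simp)

theorem b_mem_pl (b : Fin m → K) : (j.insertNth (0 : K) b : Fin (m + 1) → K) ∈ pl j r b :=
  Submodule.subset_span (by simp)

theorem pl_finrank (hj : r j ≠ 0) {b : Fin m → K} (hb : b ≠ 0) : finrank K (pl j r b) = 2 := by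
  set a : Fin (m + 1) → K := j.insertNth 0 b with ha
  have haj : a j = 0 := by rw [ha, Fin.insertNth_apply_same]
  have ha0 : a ≠ 0 := by
    intro h1
    apply hb
    funext i
    have := congrFun h1 (j.succAbove i)
    rw [ha, Fin.insertNth_apply_succAbove] at this
    exact this
  have hind : LinearIndependent K ![a, r] := by
    rw [LinearIndependent.pair_iff]
    intro s t hst
    have h1 := congrFun hst j
    simp only [Pi.add_apply, Pi.smul_apply, smul_eq_mul, haj, mul_zero, zero_add,
      Pi.zero_apply] at h1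
    have ht : t = 0 := (mul_eq_zero.1 h1).resolve_right hj
    rw [ht, zero_smul, add_zero] at hst
    exact ⟨(smul_eq_zero.1 hst).resolve_right ha0, ht⟩
  have h1 := finrank_span_eq_card hind
  rw [Matrix.range_cons, Matrix.range_cons, Matrix.range_empty, Set.union_empty,
    Set.singleton_union] at h1
  unfold pl
  simpa using h1

theorem pl_smul (hj : r j ≠ 0) {b b' : Fin m → K}
    (h : (j.insertNth (0 : K) b' : Fin (m + 1) → K) ∈ pl j r b) : ∃ s : K, b' = s • b := by
  unfold pl at h
  rw [Submodule.mem_span_pair] at h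
  obtain ⟨s, t, hst⟩ := h
  have h1 := congrFun hst j
  simp only [Pi.add_apply, Pi.smul_apply, smul_eq_mul, Fin.insertNth_apply_same, mul_zero,
    zero_add] at h1
  have ht : t = 0 := (mul_eq_zero.1 h1).resolve_right hj
  refine ⟨s, ?_⟩
  funext i
  have h2 := congrFun hst (j.succAbove i)
  rw [ht] at h2
  simp only [Pi.add_apply, Pi.smul_apply, smul_eq_mul, Fin.insertNth_apply_succAbove, zero_mul,
    add_zero] at h2
  rw [Pi.smul_apply, smul_eq_mul]
  exact h2.symm

theorem exists_pl (hj : r j ≠ 0) (W : Submodule K (Fin (m + 1) → K)) (hW : finrank K W = 2)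
    (hr : r ∈ W) : ∃ b : Fin m → K, b ≠ 0 ∧ pl j r b ≤ W := by
  have hnot : ¬ W ≤ Submodule.span K {r} := by
    intro h
    have h1 := Submodule.finrank_mono h
    have h2 := finrank_span_singleton (K := K) (v := r) (by
      intro h0
      rw [h0] at hj
      exact hj rfl)
    omega
  obtain ⟨w, hw, hwr⟩ := Set.not_subset.1 hnot
  set w' : Fin (m + 1) → K := w - (w j / r j) • r with hw'
  have hw'W : w' ∈ W := W.sub_mem hw (W.smul_mem _ hr)
  have hw'j : w' j = 0 := by
    rw [hw', Pi.sub_apply, Pi.smul_apply, smul_eq_mul, div_mul_cancel₀ _ hj, sub_self]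
  have hins : (j.insertNth (0 : K) (fun i => w' (j.succAbove i)) : Fin (m + 1) → K) = w' := by
    funext i
    rcases eq_or_ne i j with rfl | hij
    · rw [Fin.insertNth_apply_same, hw'j]
    · obtain ⟨k, rfl⟩ := Fin.exists_succAbove_eq hij
      rw [Fin.insertNth_apply_succAbove]
  refine ⟨fun i => w' (j.succAbove i), ?_, ?_⟩
  · intro h0
    apply hwr
    have h1 : w' = 0 := by
      rw [← hins, h0]
      funext i
      rcases eq_or_ne i j with rfl | hij
      · rw [Fin.insertNth_apply_same]; rfl
      · obtain ⟨k, rfl⟩ := Fin.exists_succAbove_eq hij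
        rw [Fin.insertNth_apply_succAbove]; rfl
    have h2 : w = (w j / r j) • r := sub_eq_zero.1 h1
    rw [h2]
    exact Submodule.smul_mem _ _ (Submodule.mem_span_singleton_self r)
  · unfold pl
    rw [Submodule.span_le, hins]
    rintro x (rfl | hx)
    · exact hw'W
    · rw [Set.mem_singleton_iff] at hx
      rw [hx]
      exact hr

theorem rep_eq {p p' : Projectivization K (Fin m → K)} {c : K} (h : p.rep = c • p'.rep) : p = p' := by
  rw [← p.mk_rep, ← p'.mk_rep, Projectivization.mk_eq_mk_iff']
  exact ⟨c, h.symm⟩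

theorem card_cov [Fintype K] {ν : Type} (A : ν → Fin (m + 1) → K) (hj : r j ≠ 0)
    (hu : uncD A ≠ 0) : ∑ k ∈ Finset.range m, Fintype.card K ^ k ≤
      Nat.card {p : Projectivization K (Fin m → K) // ∃ i, A i ∈ pl j r p.rep} + uncD A := by
  classical
  have : Fintype (Projectivization K (Fin m → K)) := Fintype.ofFinite _
  have h2 := Projectivization.card_of_finrank K (Fin m → K) (Module.finrank_fin_fun (n := m) K)
  rw [Nat.card_eq_fintype_card (α := K)] at h2
  rw [← h2]
  have hfin : Finite {W : Submodule K (Fin (m + 1) → K) // finrank K W = 2 ∧ ∀ i, A i ∉ W} :=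
    Nat.finite_of_card_ne_zero hu
  have h3 : Nat.card {p : Projectivization K (Fin m → K) // ¬ ∃ i, A i ∈ pl j r p.rep} ≤ uncD A := by
    unfold uncD
    refine Nat.card_le_card_of_injective (fun p => ⟨pl j r p.1.rep, pl_finrank hj p.1.rep_nonzero,
      fun i hi => p.2 ⟨i, hi⟩⟩) ?_
    intro p p' hpp
    have h4 : pl j r p.1.rep = pl j r p'.1.rep := congrArg Subtype.val hpp
    have h5 : (j.insertNth (0 : K) p.1.rep : Fin (m + 1) → K) ∈ pl j r p'.1.rep :=
      h4 ▸ b_mem_pl p.1.rep
    obtain ⟨s, hs⟩ := pl_smul hj h5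
    exact Subtype.ext (rep_eq hs)
  have h4 : Nat.card (Projectivization K (Fin m → K)) =
      Nat.card {p : Projectivization K (Fin m → K) // ∃ i, A i ∈ pl j r p.rep} +
      Nat.card {p : Projectivization K (Fin m → K) // ¬ ∃ i, A i ∈ pl j r p.rep} := by
    rw [Nat.card_eq_fintype_card, Nat.card_eq_fintype_card, Nat.card_eq_fintype_card,
      Fintype.card_subtype_compl]
    have := Fintype.card_subtype_le (fun p : Projectivization K (Fin m → K) =>
      ∃ i, A i ∈ pl j r p.rep)
    omega
  rw [h4]
  omega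

end planes

/-! ### The restriction -/

section rho

variable {K : Type} [Field K] {m : ℕ} {j : Fin (m + 1)} {h : Fin (m + 1) → K}
  {ρ : MvPolynomial (Fin (m + 1)) K →ₐ[K] MvPolynomial (Fin m) K}

theorem rho_hom (hj : h j ≠ 0) (hs : ∀ i, ρ (X (j.succAbove i)) = X i) (h0 : ρ (lin h) = 0)
    {f : MvPolynomial (Fin (m + 1)) K} {n : ℕ} (hf : f.IsHomogeneous n) :
    (ρ f).IsHomogeneous n := by
  have hρC : ∀ c : K, ρ (C c) = C c := fun c => by rw [algHom_C, algebraMap_eq]
  have h1 : ∀ i, (ρ (X i)).IsHomogeneous 1 := by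
    intro i
    rcases eq_or_ne i j with rfl | hij
    · unfold lin at h0
      rw [map_sum, Fin.sum_univ_succAbove _ i] at h0
      simp only [map_mul, hρC, hs] at h0
      have h2 : ρ (X i) = C (h i)⁻¹ * (-(∑ k, C (h (i.succAbove k)) * X k)) := by
        rw [← eq_neg_of_add_eq_zero_left h0, ← mul_assoc, ← C_mul, inv_mul_cancel₀ hj, C_1, one_mul]
      rw [h2]
      refine IsHomogeneous.C_mul ?_ _
      exact (homogeneousSubmodule (Fin m) K 1).neg_mem
        (IsHomogeneous.sum _ _ _ fun k _ => isHomogeneous_C_mul_X _ _)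
    · obtain ⟨k, rfl⟩ := Fin.exists_succAbove_eq hij
      rw [hs]
      exact isHomogeneous_X _ _
  have h2 : ρ = aeval fun i => ρ (X i) := by
    apply MvPolynomial.algHom_ext
    intro i
    rw [aeval_X]
  rw [h2]
  have h3 := hf.aeval (fun i => ρ (X i)) h1
  rwa [one_mul] at h3

end rho

end

end Pool.Agent.H57.TF
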